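import Pool.Agent.Lib.MP_c40b92_nt.Main

/-!
For a non-real embedding `σ` of a number field `K` whose image is stable under complex conjugation,
the closed unit ball of `σ` is Diophantine over `K` if and only if the subfield of the elements
that are real under `σ` is Diophantine over `K`.
-/

namespace Pool.Agent.Results.MP_c40b92_nt.RealSubfield

open Pool.Agent.Lib.MP_c40b92_nt

theorem result (K : Type) [Field K] [NumberField K] (σ : K →+* ℂ)
    (hc : ∀ x : K, ∃ y : K, σ y = starRingEnd ℂ (σ x)) (hn : ∃ x : K, (σ x).im ≠ 0) :
    Diophantine {x : K | ‖σ x‖ ≤ 1} ↔ Diophantine {x : K | (σ x).im = 0} :=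
  main σ hc hn

end Pool.Agent.Results.MP_c40b92_nt.RealSubfield
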